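import Pool.Agent.H54.WM.Targets

/-!
# MP_e37c09_lc, row SIN: a singular cardinal
-/

set_option autoImplicit false

open Ordinal Cardinal Order Set
open scoped ZFSet

universe u

namespace Pool.Agent.H8.WM.SIN

open _root_.HD Pool.Agent.H54.WM

theorem X : T_SIN.{u} := by
  intro δ
  have h1 : IsSuccLimit (δ + ω_ 1) := isSuccLimit_add δ (isSuccLimit_omega 1)
  refine ⟨ℶ_ (δ + ω_ 1), aleph0_le_beth _, ?_, ?_, ?_⟩
  · intro hr
    have h2 := hr.cof_ord
    have h3 : (ℶ_ (δ + ω_ 1)).ord.cof = (δ + ω_ 1).cof :=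
      cof_map_of_isNormal (f := fun o => (ℶ_ o).ord) (isNormal_ord.comp isNormal_beth) h1
    have h4 : (δ + ω_ 1).cof = ℵ₁ := by
      rw [cof_add δ (by simpa using (omega_pos 1).ne')]
      exact isRegular_aleph_one.cof_omega_eq
    rw [h3, h4] at h2
    have h5 : ℶ_ 1 < ℶ_ (δ + ω_ 1) := by
      rw [beth_lt_beth]
      calc (1 : Ordinal) < ω := one_lt_omega0
        _ ≤ ω_ 1 := omega0_le_omega 1
        _ ≤ δ + ω_ 1 := le_add_left le_rfl
    have h6 : ℵ₁ ≤ ℶ_ 1 := aleph_le_beth 1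
    exact absurd h2 (h6.trans_lt h5).ne
  · rw [lt_ord]
    refine (card_le_beth δ).trans_lt ?_
    rw [beth_lt_beth]
    exact lt_add_of_pos_right δ (omega_pos 1)
  · intro τ hτ
    rw [lt_succ_iff] at hτ ⊢
    refine (power_le_power_right hτ).trans ?_
    have hsl : IsStrongLimit (ℶ_ (δ + ω_ 1)) := isStrongLimit_beth.2 h1.isSuccPrelimit
    have h3 : (ℶ_ (δ + ω_ 1)).ord.cof = (δ + ω_ 1).cof :=
      cof_map_of_isNormal (f := fun o => (ℶ_ o).ord) (isNormal_ord.comp isNormal_beth) h1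
    have h4 : (δ + ω_ 1).cof = ℵ₁ := by
      rw [cof_add δ (by simpa using (omega_pos 1).ne')]
      exact isRegular_aleph_one.cof_omega_eq
    generalize hγ : ℶ_ (δ + ω_ 1) = γ at *
    have hγ0 : ℵ₀ ≤ γ := hγ ▸ aleph0_le_beth _
    have h5 : #(ULift.{u} ℕ × γ.out) = γ := by
      rw [mk_prod, mk_out]
      simp only [mk_uLift, mk_nat, Cardinal.lift_id, lift_aleph0]
      exact aleph0_mul_eq hγ0
    have h6 := mk_subset_mk_lt_cof (α := ULift.{u} ℕ × γ.out) (by rw [h5]; exact hsl.isStrongPrelimit)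
    rw [h5, h3, h4] at h6
    have h7 : γ ^ ℵ₀ = #(ULift.{u} ℕ → γ.out) := by
      rw [← power_def, mk_out]
      simp
    rw [h7]
    conv_rhs => rw [← h6]
    refine mk_le_of_injective (f := fun f => ⟨Set.range fun n => (n, f n), ?_⟩) ?_
    · refine lt_of_le_of_lt mk_range_le ?_
      simp only [mk_uLift, mk_nat, lift_aleph0]
      exact aleph0_lt_aleph_one
    · intro f g hfg
      have h8 : (Set.range fun n => (n, f n)) = Set.range fun n => (n, g n) := congrArg Subtype.val hfg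
      funext n
      have h9 : (n, f n) ∈ Set.range fun n => (n, g n) := h8 ▸ Set.mem_range_self n
      obtain ⟨m, hm⟩ := h9
      rw [Prod.mk.injEq] at hm
      rw [← hm.2, hm.1]

end Pool.Agent.H8.WM.SIN
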